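import Pool.Agent.SZT.StmtsB

set_option autoImplicit false

namespace Pool.Agent.SZT.H89

open Polynomial

theorem rvl : B.RvlStmt := by
  intro K L _ _ φ v A g hφ hA hs
  have hinj : Function.Injective φ := φ.injective
  have h1 : φ (resultant A g) = resultant (A.map φ) (g.map φ) := by
    rw [← resultant_map_map, natDegree_map, natDegree_map]
  have h2 := resultant_eq_prod_eval (A.map φ) (g.map φ) (n := (g.map φ).natDegree) le_rfl hs
  rw [← hφ, h1, h2, (hA.map φ).leadingCoeff, one_pow, one_mul]
  have h3 := Multiset.prod_hom ((A.map φ).roots.map fun x => eval x (g.map φ))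
    (normHom : L →*₀ ℝ)
  rw [Multiset.map_map] at h3
  exact h3.symm

end Pool.Agent.SZT.H89
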