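import Pool.Agent.Helper6_SZT.ODN
import Pool.Agent.Helper78_SZT.ODA
import Pool.Agent.Helper75_SZT.CVX
import Pool.Agent.Helper77_SZT.OKN
import Pool.Agent.Helper24_SZT.OKA
import Pool.Agent.Helper40_SZT.UVL
import Pool.Agent.Helper48_SZT.FVL
import Pool.Agent.Helper25_SZT.PTA
import Pool.Agent.Helper53_SZT.PTB
import Pool.Agent.Helper27_SZT.CMB
import Pool.Agent.Helper2_SZT.TRF
import Pool.Agent.Helper90_SZT.AOT
import Pool.Agent.Helper34_SZT.SUM
import Pool.Agent.Helper80_SZT.STR
import Pool.Agent.Helper47_SZT.LIP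
import Pool.Agent.Helper23_SZT.DIV
import Pool.Agent.Helper23_SZT.FAC
import Pool.Agent.Helper74_SZT.SLO
import Pool.Agent.Helper82_SZT.PMU
import Pool.Agent.Helper94_SZT.SQR
import Pool.Agent.Helper26_SZT.EXL
import Pool.Agent.Helper81_SZT.NOD
import Pool.Agent.Helper18_SZT.CHT
import Pool.Agent.Helper9_SZT.GAU
import Pool.Agent.Helper41_SZT.SCH
import Pool.Agent.Helper16_SZT.ORD
import Pool.Agent.Helper16_SZT.INF
import Pool.Agent.Helper24_SZT.NIN
import Pool.Agent.Helper18_SZT.EIA
import Pool.Agent.Helper70_SZT.EIN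
import Pool.Agent.Helper32_SZT.INV
import Pool.Agent.Helper7_SZT.NRM
import Pool.Agent.Helper82_SZT.REP
import Pool.Agent.Helper31_SZT.IMU
import Pool.Agent.Helper18_SZT.IMI
import Pool.Agent.Helper47_SZT.ADD
import Pool.Agent.Helper32_SZT.KAP
import Pool.Agent.Helper6_SZT.LIM
import Pool.Agent.Helper60_SZT.RAT
import Pool.Agent.Helper39_SZT.NSZ
import Pool.Agent.Helper74_SZT.CPL
import Pool.Agent.Helper38_SZT.ROO
import Pool.Agent.Helper89_SZT.RVL
import Pool.Agent.Helper39_SZT.BOU
import Pool.Agent.Helper82_SZT.BOT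
import Pool.Agent.Helper21_SZT.MII
import Pool.Agent.Helper77_SZT.MIK
import Pool.Agent.Helper26_SZT.NRP
import Pool.Agent.Helper95_SZT.UNQ
import Pool.Agent.Helper76_SZT.REX
import Pool.Agent.Helper92_SZT.PRO
import Pool.Agent.Helper10_SZT.PAI
import Pool.Agent.Helper27_SZT.SID
import Pool.Agent.Helper25_SZT.BDK
import Pool.Agent.Helper98_SZT.CNT
import Pool.Agent.Helper88_SZT.PEL
import Pool.Agent.Helper86_SZT.PFS
import Pool.Agent.Helper38_SZT.DSR
import Pool.Agent.Helper34_SZT.AVG
import Pool.Agent.Helper69_SZT.DSH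
import Pool.Agent.Helper86_SZT.QVN
import Pool.Agent.Helper62_SZT.GPR
import Pool.Agent.Helper95_SZT.LIF
import Pool.Agent.Helper25_SZT.LFN
import Pool.Agent.Helper88_SZT.MSM
import Pool.Agent.Helper44_SZT.FIN
import Pool.Agent.Helper94_MNT.A1G
import Pool.Agent.Helper75_BHT.A2
import Pool.Agent.Helper81_UBT.Ext1
import Pool.Agent.Helper75_BHT.Ev
import Pool.Agent.Helper58_UB.Loc

set_option autoImplicit false

/-!
# Squad SZT (MP_160b6c_nt): the final assembly
-/

namespace Pool.Agent.SZT.H89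

/-- block A -/
theorem aout (sms : SmsStmt) : AOutStatement :=
  H90.aot (H27.cmb (H25.pta H75.cvx H40.uvl H48.fvl) (H53.ptb H40.uvl H48.fvl) sms) H2.trf
    (H77.okn H6.odn) (H24.oka (H78.oda Pool.Agent.MNT.H94.a1g BHT.a2))

/-- block B -/
theorem bout : BOutStatement :=
  have sum := H34.sum
  have lip := H47.lip sum
  have fac := H23.fac sum lip (H23.div sum)
  have slo := H74.slo sum (H80.str sum) fac
  have pmu := H82.pmu
  have exl := H26.exl pmu
  have nod := H81.nod
  have cht := H18.cht nod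
  have gau := H9.gau
  have sch := H41.sch
  have nin := H24.nin sum lip fac pmu exl nod cht
  have ein := H70.ein nod cht gau (H16.ord nod sch) (H16.inf nod sch) nin H18.eia
  have inv := H32.inv
  have imu := H31.imu nod cht
  have imi := H18.imi pmu lip exl nod cht imu
  have add := H47.add slo pmu exl nod cht gau imu imi
  have kap := H32.kap cht inv (H7.nrm inv) (H82.rep H76.rex) add
  H82.bot (H39.bou nod H74.cpl H38.roo (H94.sqr pmu) kap (H60.rat nod)
    (H39.nsz nod cht H6.lim) ein H89.rvl)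

/-- block C -/
theorem msm (aout : AOutStatement) (bout : BOutStatement) : MsmStatement :=
  have mii := H21.mii
  have mik := H77.mik
  have nrp := H26.nrp mii
  have unq := H95.unq mii mik nrp
  have pai := H10.pai unq (Pool.Agent.Helper92_SZT.pro mik) mii
  have cnt := H98.cnt mii pai H27.sid (H25.bdk mik)
  have pel := H88.pel mii mik
  have dsr := H38.dsr
  have lif := H95.lif aout dsr
  have lfn := H25.lfn aout dsr UBT.ext1 BHT.ev
  H88M.msm cnt pel H86.pfs lif lfn bout H34.avg (H69.dsh dsr) H86.qvn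

theorem main (sms : SmsStmt) : SztStatement :=
  H44.fin (msm (aout sms) bout) H76.rex (H69.dsh H38.dsr) H86.qvn (H62.gpr H58Q.loc H58Q.ded)
    H58Q.ded

end Pool.Agent.SZT.H89
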