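import Pool.Agent.Helper89_SZT.Final0
import Pool.Agent.Helper64_SZT.SMS

set_option autoImplicit false

/-!
# Squad SZT (MP_160b6c_nt): the theorem
-/

namespace Pool.Agent.SZT.H89

theorem final : SztStatement := main H64.sms

end Pool.Agent.SZT.H89
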